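import Pool.Agent.MP_3ee8cb_gt.DN.Defs

/-! Geodesics, distances and Jacobi fields of a front: basic facts. -/

namespace Pool.Agent.MP_3ee8cb_gt.DNWI

open DN (Dim dm)

variable [Dim]

open DN Set
open scoped RealInnerProductSpace

variable {m : MF} {lg : V × V → V} {σ : V → V × V}

theorem flipZ (hj : m.Jac) (t : ℝ) (y b : V) :
    m.Z t (y, -b) = ((m.Z (-t) (y, b)).1, -(m.Z (-t) (y, b)).2) := by
  have h := hj.scale t (-1) y b
  simpa using h

theorem one_smul' (hj : m.Jac) (r : ℝ) (z : V × V) :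
    m.Z 1 (z.1, r • z.2) = ((m.Z r z).1, r • (m.Z r z).2) := by
  have h := hj.scale 1 r z.1 z.2
  simpa using h

theorem lg_ray (hj : m.Jac) (hl : m.Had lg) (r : ℝ) (z : V × V) :
    lg (z.1, (m.Z r z).1) = r • z.2 := by
  have h := hl.xe z.1 (r • z.2)
  rw [one_smul' hj] at h
  exact h

theorem lg_geo (ho : m.OK) (hj : m.Jac) (hl : m.Had lg) (z : V × V) (s t : ℝ) :
    lg ((m.Z s z).1, (m.Z t z).1) = (t - s) • (m.Z s z).2 := by
  have h := lg_ray hj hl (t - s) (m.Z s z)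
  rw [← ho.add, sub_add_cancel] at h
  exact h

theorem lg_self (ho : m.OK) (hj : m.Jac) (hl : m.Had lg) (y : V) : lg (y, y) = 0 := by
  have h := lg_ray hj hl 0 (y, 0)
  rw [ho.zero] at h
  simpa using h

theorem lg_symm (hj : m.Jac) (hl : m.Had lg) (y z : V) : ‖lg (z, y)‖ = ‖lg (y, z)‖ := by
  rw [hl.rev y z, norm_neg, hj.norm]

theorem hinge' (hl : m.Had lg) (y p q : V) : ‖lg (y, p) - lg (y, q)‖ ≤ ‖lg (p, q)‖ := by
  have h := hl.hinge y (lg (y, p)) (lg (y, q))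
  rwa [hl.ex, hl.ex] at h

theorem dist_geo (ho : m.OK) (hj : m.Jac) (hl : m.Had lg) (z : V × V) (s t : ℝ) :
    ‖lg ((m.Z s z).1, (m.Z t z).1)‖ = |t - s| * ‖z.2‖ := by
  rw [lg_geo ho hj hl, norm_smul, hj.norm, Real.norm_eq_abs]

theorem ne_of_norm {a : V} (ha : ‖a‖ = 1) : a ≠ 0 := by
  rintro rfl
  simp at ha

theorem front_neg (hf : m.Front σ) {a : V} (ha : a ≠ 0) : σ (-a) = ((σ a).1, -(σ a).2) := by
  have h := hf.hom (-1) a (by norm_num) ha
  simpa using h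

theorem Z_neg (hj : m.Jac) (hf : m.Front σ) {a : V} (ha : a ≠ 0) (t : ℝ) :
    m.Z t (σ (-a)) = ((m.Z (-t) (σ a)).1, -(m.Z (-t) (σ a)).2) := by
  rw [front_neg hf ha, flipZ hj]

theorem front_diff (hf : m.Front σ) {a : V} (ha : a ≠ 0) : DifferentiableAt ℝ σ a :=
  (hf.c1.contDiffAt (isOpen_ne.mem_nhds ha)).differentiableAt one_ne_zero

theorem Z_c1 (ho : m.OK) (t : ℝ) : ContDiff ℝ 1 (m.Z t) :=
  ho.cZ.comp (contDiff_const.prodMk contDiff_id)

theorem Z_diff (ho : m.OK) (t : ℝ) (z : V × V) : DifferentiableAt ℝ (m.Z t) z :=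
  (Z_c1 ho t).differentiable one_ne_zero z

theorem fderiv_Z0 (ho : m.OK) (z ξ : V × V) : fderiv ℝ (m.Z 0) z ξ = ξ := by
  have h : m.Z 0 = id := funext ho.zero
  rw [h, fderiv_id]
  rfl

theorem J_zero (ho : m.OK) (z ξ : V × V) : m.J z ξ 0 = m.hor z ξ := by
  rw [MF.J, fderiv_Z0 ho, ho.zero]

theorem J'_zero (ho : m.OK) (z ξ : V × V) : m.J' z ξ 0 = m.ver z ξ := by
  rw [MF.J', fderiv_Z0 ho, ho.zero]

theorem skew_self (ho : m.OK) (y u a : V) : ⟪m.om y u a, a⟫ = 0 := by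
  have h := ho.skew y u a a
  rw [real_inner_comm (m.om y u a) a] at h
  linarith

theorem vel_deriv (ho : m.OK) (z : V × V) (t : ℝ) :
    HasDerivAt (fun s => (m.Z s z).2) (-m.w z t (m.Z t z).2) t :=
  (ho.ode z t).snd

/-- The normal component of the derivative of a Jacobi field is constant. -/
theorem J'_vel (ho : m.OK) (hj : m.Jac) (z ξ : V × V) (t : ℝ) :
    ⟪m.J' z ξ t, (m.Z t z).2⟫ = ⟪m.ver z ξ, z.2⟫ := by
  have hd : ∀ s, HasDerivAt (fun s => ⟪m.J' z ξ s, (m.Z s z).2⟫) 0 s := fun s => by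
    have h := (hj.d2 z ξ s).inner ℝ (vel_deriv ho z s)
    have h1 := hj.sK (m.Z s z).1 (m.J z ξ s) (m.Z s z).2 (m.Z s z).2 (m.Z s z).2
    rw [real_inner_comm (m.K _ _ _ _) (m.Z s z).2] at h1
    have h2 := ho.skew (m.Z s z).1 (m.R (m.Z s z).1 (m.Z s z).2) (m.J' z ξ s) (m.Z s z).2
    refine h.congr_deriv ?_
    rw [inner_neg_right, inner_sub_left, inner_neg_left, MF.w]
    linarith
  have h := is_const_of_deriv_eq_zero (fun s => (hd s).differentiableAt)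
    (fun s => (hd s).deriv) t 0
  rw [h, J'_zero ho, ho.zero]

/-- The normal component of a Jacobi field is affine. -/
theorem J_vel (ho : m.OK) (hj : m.Jac) (z ξ : V × V) (t : ℝ) :
    ⟪m.J z ξ t, (m.Z t z).2⟫ = ⟪m.hor z ξ, z.2⟫ + t * ⟪m.ver z ξ, z.2⟫ := by
  have hd : ∀ s, HasDerivAt (fun s => ⟪m.J z ξ s, (m.Z s z).2⟫ - s * ⟪m.ver z ξ, z.2⟫) 0 s :=
    fun s => by
    have h := ((hj.d1 z ξ s).inner ℝ (vel_deriv ho z s)).sub
      ((hasDerivAt_id s).mul_const ⟪m.ver z ξ, z.2⟫)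
    have h2 := ho.skew (m.Z s z).1 (m.R (m.Z s z).1 (m.Z s z).2) (m.J z ξ s) (m.Z s z).2
    have h3 := J'_vel ho hj z ξ s
    refine h.congr_deriv ?_
    rw [inner_neg_right, inner_sub_left, MF.w]
    linarith
  have h := is_const_of_deriv_eq_zero (fun s => (hd s).differentiableAt)
    (fun s => (hd s).deriv) t 0
  simp only [J_zero ho, ho.zero] at h
  linarith

/-- The derivative of the length of the normal. -/
theorem ver_front (ho : m.OK) (hf : m.Front σ) {a : V} (ha : a ≠ 0) (e : V) :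
    ⟪m.ver (σ a) (fderiv ℝ σ a e), (σ a).2⟫ = ⟪a, e⟫ := by
  have hd := (front_diff hf ha).hasFDerivAt
  have h1 := (hd.snd.inner ℝ hd.snd)
  have h2 : HasFDerivAt (fun b : V => ⟪b, b⟫) _ a := (hasFDerivAt_id a).inner ℝ (hasFDerivAt_id a)
  have h3 : (fun b : V => ⟪b, b⟫) =ᶠ[nhds a] fun b => ⟪(σ b).2, (σ b).2⟫ := by
    filter_upwards [isOpen_ne.mem_nhds ha] with b hb
    rw [real_inner_self_eq_norm_sq, real_inner_self_eq_norm_sq, hf.norm b hb]
  have h4 := DFunLike.congr_fun ((h1.congr_of_eventuallyEq h3).unique h2) e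
  have h5 := skew_self ho (σ a).1 (fderiv ℝ σ a e).1 (σ a).2
  simp only [ContinuousLinearMap.comp_apply, ContinuousLinearMap.prod_apply, fderivInnerCLM_apply,
    ContinuousLinearMap.coe_snd', ContinuousLinearMap.id_apply, id] at h4
  simp only [MF.ver, ContinuousLinearMap.add_apply, ContinuousLinearMap.comp_apply,
    ContinuousLinearMap.coe_snd', ContinuousLinearMap.coe_fst', ContinuousLinearMap.flip_apply,
    inner_add_left, h5]
  rw [real_inner_comm (fderiv ℝ σ a e).2, real_inner_comm a e] at h4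
  linarith

/-- The Jacobi fields of the front have the normal component `t ⟪a, e⟫`. -/
theorem J_front (ho : m.OK) (hj : m.Jac) (hf : m.Front σ) {a : V} (ha : a ≠ 0) (e : V) (t : ℝ) :
    ⟪m.J (σ a) (fderiv ℝ σ a e) t, (m.Z t (σ a)).2⟫ = t * ⟪a, e⟫ := by
  rw [J_vel ho hj, ver_front ho hf ha, real_inner_comm, hf.leg a e ha, zero_add]

/-- The Jacobi fields of the front at time `t`, as a linear map. -/
noncomputable def JL (m : MF) (σ : V → V × V) (a : V) (t : ℝ) : V →L[ℝ] V :=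
  (m.hor (m.Z t (σ a))).comp ((fderiv ℝ (m.Z t) (σ a)).comp (fderiv ℝ σ a))

theorem JL_apply (a e : V) (t : ℝ) : JL m σ a t e = m.J (σ a) (fderiv ℝ σ a e) t := rfl

theorem JL_inj (ho : m.OK) (hj : m.Jac) (hf : m.Front σ) {T t : ℝ} (hg : m.Good σ T) (hT : 0 < T)
    (ht : T ≤ t) {a : V} (ha : ‖a‖ = 1) : Function.Injective (JL m σ a t) := by
  refine (injective_iff_map_eq_zero _).2 fun e he => ?_
  have h1 := J_front ho hj hf (ne_of_norm ha) e t
  rw [← JL_apply, he, inner_zero_left] at h1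
  have h2 : ⟪a, e⟫ = 0 := by
    rcases mul_eq_zero.1 h1.symm with h | h
    · linarith
    · exact h
  by_contra h0
  have h3 := hg.pos a e t ha h2 h0 ht
  rw [← JL_apply, he, inner_zero_left] at h3
  exact lt_irrefl _ h3

theorem JL_surj (ho : m.OK) (hj : m.Jac) (hf : m.Front σ) {T t : ℝ} (hg : m.Good σ T) (hT : 0 < T)
    (ht : T ≤ t) {a : V} (ha : ‖a‖ = 1) : Function.Surjective (JL m σ a t) :=
  (LinearMap.injective_iff_surjective (f := (JL m σ a t).toLinearMap)).1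
    (JL_inj ho hj hf hg hT ht ha)

/-- The radial Jacobi field of the front. -/
theorem JL_self (ho : m.OK) (hj : m.Jac) (hf : m.Front σ) {a : V} (ha : a ≠ 0) (t : ℝ) :
    JL m σ a t a = t • (m.Z t (σ a)).2 := by
  have h1 : HasDerivAt (fun r : ℝ => r • a) a 1 := by
    simpa using (hasDerivAt_id (1 : ℝ)).smul_const a
  have h2 : HasFDerivAt σ (fderiv ℝ σ a) ((1 : ℝ) • a) := by
    rw [one_smul]; exact (front_diff hf ha).hasFDerivAt
  have h3 : HasFDerivAt (m.Z t) (fderiv ℝ (m.Z t) (σ a)) (σ ((1 : ℝ) • a)) := by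
    rw [one_smul]; exact (Z_diff ho t _).hasFDerivAt
  have h4a : HasDerivAt (fun r : ℝ => m.Z t (σ (r • a)))
      (fderiv ℝ (m.Z t) (σ a) (fderiv ℝ σ a a)) 1 :=
    h3.comp_hasDerivAt (1 : ℝ) (h2.comp_hasDerivAt (1 : ℝ) h1)
  have h4 : HasDerivAt (fun r : ℝ => (m.Z t (σ (r • a))).1)
      (fderiv ℝ (m.Z t) (σ a) (fderiv ℝ σ a a)).1 1 :=
    (ContinuousLinearMap.fst ℝ V V).hasFDerivAt.comp_hasDerivAt (1 : ℝ) h4a
  have h5 : HasDerivAt (fun s => (m.Z s (σ a)).1) (m.vf (m.Z t (σ a))).1 (1 * t) := by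
    rw [one_mul]
    exact (ContinuousLinearMap.fst ℝ V V).hasFDerivAt.comp_hasDerivAt t (ho.ode (σ a) t)
  have h6 := h5.scomp (1 : ℝ) ((hasDerivAt_id (1 : ℝ)).mul_const t)
  have h7 : (fun r : ℝ => (m.Z (r * t) (σ a)).1) =ᶠ[nhds 1]
      fun r : ℝ => (m.Z t (σ (r • a))).1 := by
    filter_upwards [isOpen_ne.mem_nhds (one_ne_zero (α := ℝ))] with r hr
    rw [hf.hom r a hr ha, hj.scale]
  have h8 := (h4.congr_of_eventuallyEq h7).unique h6
  change m.S _ (fderiv ℝ (m.Z t) (σ a) (fderiv ℝ σ a a)).1 = _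
  rw [h8, one_mul, map_smul, MF.vf, ho.SR]

/-- A vector orthogonal to the front is a multiple of its normal. -/
theorem normal (ho : m.OK) (hj : m.Jac) (hf : m.Front σ) {T t : ℝ} (hg : m.Good σ T) (hT : 0 < T)
    (ht : T ≤ t) {a l : V} (ha : ‖a‖ = 1)
    (hl : ∀ e, ⟪a, e⟫ = 0 → ⟪l, JL m σ a t e⟫ = 0) :
    l = ⟪l, (m.Z t (σ a)).2⟫ • (m.Z t (σ a)).2 := by
  refine ext_inner_right ℝ fun v => ?_
  obtain ⟨e, rfl⟩ := JL_surj ho hj hf hg hT ht ha v
  have h1 := hl (e - ⟪a, e⟫ • a) (by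
    rw [inner_sub_right, inner_smul_right, real_inner_self_eq_norm_sq, ha]; ring)
  rw [map_sub, map_smul, JL_self ho hj hf (ne_of_norm ha), inner_sub_right, inner_smul_right,
    inner_smul_right] at h1
  have h2 := J_front ho hj hf (ne_of_norm ha) e t
  rw [← JL_apply, real_inner_comm] at h2
  rw [real_inner_smul_left, h2]
  linarith

/-- The derivative of the front at time `t`. -/
theorem front_fderiv (ho : m.OK) (hf : m.Front σ) {a : V} (ha : a ≠ 0) (t : ℝ) :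
    HasFDerivAt (fun b => (m.Z t (σ b)).1)
      ((m.R (m.Z t (σ a)).1).comp (JL m σ a t)) a := by
  have h := ((Z_diff ho t (σ a)).hasFDerivAt.comp a (front_diff hf ha).hasFDerivAt).fst
  refine h.congr_fderiv (ContinuousLinearMap.ext fun e => ?_)
  exact (ho.RS _ _).symm

/-- The midpoint inequality. -/
theorem mid (hj : m.Jac) (hl : m.Had lg) (z : V × V) (p : V) (T : ℝ) :
    2 * ‖lg (z.1, p)‖ ^ 2 + 2 * (T ^ 2 * ‖z.2‖ ^ 2) ≤
      ‖lg (p, (m.Z T z).1)‖ ^ 2 + ‖lg (p, (m.Z (-T) z).1)‖ ^ 2 := by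
  have h1 := hinge' hl z.1 p (m.Z T z).1
  have h2 := hinge' hl z.1 p (m.Z (-T) z).1
  rw [lg_ray hj hl] at h1 h2
  rw [neg_smul, sub_neg_eq_add] at h2
  have h3 := parallelogram_law_with_norm ℝ (lg (z.1, p)) (T • z.2)
  rw [norm_smul, Real.norm_eq_abs] at h3
  have h4 := pow_le_pow_left₀ (norm_nonneg _) h1 2
  have h5 := pow_le_pow_left₀ (norm_nonneg _) h2 2
  have h6 : |T| * ‖z.2‖ * (|T| * ‖z.2‖) = T ^ 2 * ‖z.2‖ ^ 2 := by
    rw [← sq_abs T]; ring
  nlinarith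

/-- Convexity of the distance along a geodesic. -/
theorem conv (ho : m.OK) (hj : m.Jac) (hl : m.Had lg) (z : V × V) (p : V) {r s t : ℝ}
    (hrs : r ≤ s) (hst : s ≤ t) : (t - r) * ‖lg ((m.Z s z).1, p)‖ ≤
      (t - s) * ‖lg (p, (m.Z r z).1)‖ + (s - r) * ‖lg (p, (m.Z t z).1)‖ := by
  have h1 := hinge' hl (m.Z s z).1 p (m.Z r z).1
  have h2 := hinge' hl (m.Z s z).1 p (m.Z t z).1
  rw [lg_geo ho hj hl] at h1 h2
  have h3 : (t - r) • lg ((m.Z s z).1, p) =
      (t - s) • (lg ((m.Z s z).1, p) - (r - s) • (m.Z s z).2) +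
        (s - r) • (lg ((m.Z s z).1, p) - (t - s) • (m.Z s z).2) := by module
  have h4 := norm_add_le ((t - s) • (lg ((m.Z s z).1, p) - (r - s) • (m.Z s z).2))
    ((s - r) • (lg ((m.Z s z).1, p) - (t - s) • (m.Z s z).2))
  rw [← h3, norm_smul, norm_smul, norm_smul, Real.norm_of_nonneg (by linarith),
    Real.norm_of_nonneg (by linarith), Real.norm_of_nonneg (by linarith)] at h4
  have h5 := mul_le_mul_of_nonneg_left h1 (sub_nonneg.2 hst)
  have h6 := mul_le_mul_of_nonneg_left h2 (sub_nonneg.2 hrs)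
  linarith

end Pool.Agent.MP_3ee8cb_gt.DNWI
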